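import Pool.Agent.T9h3.AsmC
import Pool.Agent.T9h3.OrdF

/-!
MP_4d1008_ag: resolution, in every dimension, of arithmetic schemes birational to algebraic tori over
number fields, with wild ramification.

Let `M` be a Galois extension of the number field `E`, with the Galois group `G`, and let `L` be a
lattice (a finitely generated free abelian group) with an action of `G`. Then `L` is the character
module of a torus over `E` which is split by `M`, and every torus over `E` which is split by `M` arises
in this way. The function field `F` of the torus is the field of the invariants of `G` in the field `K`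
of the rational functions of the split torus over `M` with the group of characters `L`. The torus is in
general not a rational variety.

The theorem: if no inertia group of `M` over `E` has order divisible by the square of the residue
characteristic (so the wild inertia groups have prime order or are trivial), then every integral
scheme of finite type over the integers with the function field `F` has a regular proper model.

The proof: there is a smooth lattice polytope in `L` which is stable under `G` (by a sequence of
symmetric blowups of codimension two, starting with the polytope of a permutation lattice which maps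
onto `L`), and the model is the quotient by `G` of a weighted blowup of the toric scheme of the
polytope over the ring of integers of `M`. At a prime where a wild automorphism `g` is the identity
modulo the `(l+1)`-st power, the centre is the closed subscheme where the characters of norm zero are
equal to one, and the weights are given by the filtration by the powers of `g - 1` on the span of the
characters.
-/

set_option autoImplicit false

open AlgebraicGeometry CategoryTheory CategoryTheory.Limits

open scoped NumberField

namespace Pool.Agent.T9h3.Old.AlgebraicTori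

/-- The inertia group of the ideal `𝔓` of the ring of integers of `M`: the automorphisms of `M` over
`E` which act trivially modulo `𝔓`. -/
def inertiaGroup (E : Type) {M : Type} [Field E] [Field M] [Algebra E M] (𝔓 : Ideal (𝓞 M)) :
    Set (M ≃ₐ[E] M) :=
  {g | ∀ o : 𝓞 M, ∃ e ∈ 𝔓, (e : M) = g o - o}

/-- The order of the inertia group of the maximal ideal `𝔓` (the ramification index of `𝔓` over `E`)
is divisible by `r ^ i`, where `r` is the residue characteristic. -/
def ResCharPowDvd (E : Type) {M : Type} [Field E] [Field M] [Algebra E M] (𝔓 : Ideal (𝓞 M))
    (i : ℕ) : Prop :=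
  ∃ r : ℕ, r.Prime ∧ (r : 𝓞 M) ∈ 𝔓 ∧ r ^ i ∣ Nat.card (inertiaGroup E 𝔓)

/-- `χ` identifies the field `K` with the field of the rational functions of the split torus over `M`
with the group of characters `L`. -/
structure IsTorusField (M : Type) {K L : Type} [Field M] [Field K] [Algebra M K] [AddCommGroup L]
    (χ : L → K) : Prop where
  zero : χ 0 = 1
  add : ∀ x y, χ (x + y) = χ x * χ y
  indep : LinearIndependent M χ
  generate : IntermediateField.adjoin M (Set.range χ) = ⊤

theorem result :
    ∀ (E M : Type) [Field E] [NumberField E] [Field M] [NumberField M] [Algebra E M]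
      [IsGalois E M],
      -- the wild inertia groups have order at most the residue characteristic
      (∀ 𝔓 : Ideal (𝓞 M), 𝔓.IsMaximal → ¬ ResCharPowDvd E 𝔓 2) →
      -- the character module of a torus over `E`
      ∀ (L : Type) [AddCommGroup L] [Module.Free ℤ L] [Module.Finite ℤ L]
      [DistribMulAction (M ≃ₐ[E] M) L]
      -- the function field `K` of the torus over `M`, and the function field `F` over `E`
      (F K : Type) [Field F] [Field K] [Algebra E F] [Algebra M K] [Algebra E K]
      [IsScalarTower E M K] [Algebra F K] [IsScalarTower E F K] (χ : L → K),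
      IsTorusField M χ →
      ∀ (ρ : (M ≃ₐ[E] M) →* (K ≃ₐ[E] K)), (∀ g c, ρ g (algebraMap M K c) = algebraMap M K (g c)) →
      (∀ g x, ρ g (χ x) = χ (g • x)) →
      (∀ y, (∀ g, ρ g y = y) ↔ ∃ f : F, algebraMap F K f = y) →
      -- every integral scheme of finite type over the integers with the function field `F`
      ∀ (Y : Scheme.{0}) (_ : IsIntegral Y) (s : Y ⟶ Spec (CommRingCat.of ℤ)),
      LocallyOfFiniteType s → QuasiCompact s → Nonempty (Y.functionField ≃+* F) →
      ∃ (X' : Scheme.{0}) (_ : IsIntegral X') (g : X' ⟶ Spec (CommRingCat.of ℤ)),
        IsProper g ∧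
        (∀ x : X',
          (((Module.finrank (IsLocalRing.ResidueField (X'.presheaf.stalk x))
              (IsLocalRing.CotangentSpace (X'.presheaf.stalk x)) : ℕ∞)) : WithBot ℕ∞)
            = ringKrullDim (X'.presheaf.stalk x)) ∧
        Nonempty (X'.functionField ≃+* Y.functionField) := by
  intro E M _ _ _ _ _ _ hin L _ _ _ _ F K _ _ _ _ _ _ _ _ χ hχ ρ hρ hact hfix Y _ s _ _ ⟨i⟩
  have hcard : ∀ 𝔓 : Ideal (𝓞 M), Nat.card (Pool.Agent.Y223.G.inert E 𝔓) =
      Nat.card (inertiaGroup E 𝔓) := by
    intro 𝔓
    have h1 : ((Pool.Agent.Y223.G.inert E 𝔓 : Subgroup (M ≃ₐ[E] M)) : Set (M ≃ₐ[E] M)) =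
        inertiaGroup E 𝔓 := by
      ext g
      constructor
      · intro hg o
        exact ⟨_, hg o, rfl⟩
      · intro hg o
        obtain ⟨e, he, h⟩ := hg o
        have h2 : e = Pool.Agent.Y223.G.TT E M g o - o := by
          apply NumberField.RingOfIntegers.coe_injective
          exact h
        rw [← h2]
        exact he
    exact congrArg (fun S : Set (M ≃ₐ[E] M) => Nat.card S) h1
  haveI : FiniteDimensional E M := FiniteDimensional.right ℚ E M
  haveI : Finite (M ≃ₐ[E] M) := inferInstance
  obtain ⟨Δ, hfin, hne, hst, hcv⟩ := Pool.Agent.T9h3.exists_smooth (M ≃ₐ[E] M) L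
  obtain ⟨P', S⟩ := Pool.Agent.T9h3.exists_TS (χ := χ) (Δ := Δ) hρ
    (fun 𝔓 h𝔓 p hp hp𝔓 hd => hin 𝔓 h𝔓 ⟨p, hp, hp𝔓, by rwa [← hcard]⟩)
    hχ.zero hχ.add hχ.indep hact hfin hst hcv hne
  obtain ⟨m, z, hD⟩ := S.wwd (F := F) hχ.generate hfix
  exact Pool.Agent.R383.TM.tm_model_F Pool.Agent.Y223.G.all_LINW Pool.Agent.Y223.G.all_CHW
    Pool.Agent.Y223.G.all_RWB Pool.Agent.Y614.H.RegL.t_REGL hD i

end Pool.Agent.T9h3.Old.AlgebraicTori
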