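import Pool.Agent.T9h3.H.End

/-!
MP_4d1008_ag: resolution, in every dimension, of arithmetic schemes birational to nondegenerate
complete intersections in algebraic tori over number fields, with wild ramification.

Let `M` be a Galois extension of the number field `E`, with the Galois group `G`, let `T` be a torus
over `E` which is split by `M`, with the character module `L`, and let `V` be a closed subvariety of
`T`, not a translate of a subtorus. Assume that `V` is defined over `M` by Laurent polynomials
`f_1, ..., f_c` in the characters, with coefficients in the ring of integers `R` of `M`, and that these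
are nondegenerate: for every linear functional `ℓ` on `L` the initial forms of the `f_r` define a regular
subscheme of codimension `c` of the split torus over `R` (this is the nondegeneracy with respect to the
Newton polytopes in the sense of Khovanskii, where regularity is required over the ring of integers).

The theorem: assume that no inertia group of `M` over `E` has order divisible by the square of the
residue characteristic, and that for every element `g` of order `r` of the inertia group of a maximal
ideal `𝔓` of residue characteristic `r`, and every `ℓ` which is invariant under `g`, the initial forms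
are smooth of codimension `c` modulo `𝔓`, at the fixed points of `g`, along the directions which are
invariant under `g`. Then every integral scheme of finite type over the integers with the function field
of `V` has a regular proper model.

Examples (not part of the formal statement):

* The hypersurfaces `a_0 N(x_0) + ... + a_n N(x_n) = 0` in projective space, `n ≥ 2`, where `N` on the
  `i`-th set of variables is the norm form of an étale algebra `K_i` over `E` which is split by `M`, all
  `K_i` have the same degree, the coefficients are integers of `E` whose product is not in `𝔓 ^ 2` for any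
  maximal ideal `𝔓` of `R`, and every element `g` as above has a fixed point on `Hom(K_i, M)`, for all but
  at most one `i` (depending on `g`). Here `L` is the lattice of the functions with sum zero on the
  disjoint union of the sets `Hom(K_i, M)`, and the evaluations at the fixed points of `g` give the
  derivations. The residue characteristics may divide the common degree of the `K_i`.
* The varieties `N(x) = P(t_1, ..., t_m)`, where `N` is the norm form of `K_1`, `P` is a polynomial over
  the integers of `E` which is nondegenerate over `R`, all its initial forms being smooth in the torus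
  modulo the wildly ramified primes, and every element `g` as above has a fixed point on `Hom(K_1, M)`.

The proof: there is a smooth lattice polytope in `L` which is stable under `G` and whose normal fan
refines those of the Newton polytopes of the `f_r`. The closure of `V` in the toric scheme of the polytope
over `R` is regular, and the model is the quotient by `G` of a weighted blowup of this closure. At a prime
where a wild automorphism `g` is the identity modulo the `(l+1)`-st power, the weighted blowup is the
strict transform in the weighted blowup of the toric scheme whose centre is given by the norm relations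
between the characters. It is regular since the derivations of the torus which are given by the
functionals invariant under `g` act on the graded algebra of the weighted blowup.
-/

set_option autoImplicit false

open AlgebraicGeometry CategoryTheory CategoryTheory.Limits

open scoped NumberField

namespace Pool.Agent.T9h3.Old.NondegenerateSubvarietiesOfTori

/-- The inertia group of the ideal `𝔓` of the ring of integers of `M`: the automorphisms of `M` over
`E` which act trivially modulo `𝔓`. -/
def inertiaGroup (E : Type) {M : Type} [Field E] [Field M] [Algebra E M] (𝔓 : Ideal (𝓞 M)) :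
    Set (M ≃ₐ[E] M) :=
  {g | ∀ o : 𝓞 M, ∃ e ∈ 𝔓, (e : M) = g o - o}

/-- The order of the inertia group of the maximal ideal `𝔓` (the ramification index of `𝔓` over `E`)
is divisible by `r ^ i`, where `r` is the residue characteristic. -/
def ResCharPowDvd (E : Type) {M : Type} [Field E] [Field M] [Algebra E M] (𝔓 : Ideal (𝓞 M))
    (i : ℕ) : Prop :=
  ∃ r : ℕ, r.Prime ∧ (r : 𝓞 M) ∈ 𝔓 ∧ r ^ i ∣ Nat.card (inertiaGroup E 𝔓)

open Classical in
/-- The initial form of the Laurent polynomial `f`: the sum of the terms of `f` at which the linear
functional `ℓ` is minimal. -/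
noncomputable def initialForm {R L : Type} [CommRing R] [AddCommGroup L] (ℓ : L →+ ℤ)
    (f : AddMonoidAlgebra R L) : AddMonoidAlgebra R L :=
  ∑ x ∈ f.coeff.support with ∀ y ∈ f.coeff.support, ℓ x ≤ ℓ y,
    AddMonoidAlgebra.single x (f.coeff x)

/-- The invariant derivation of the torus which multiplies the character `x` by `w x`. -/
noncomputable def logDeriv {R L : Type} [CommRing R] [AddCommGroup L] (w : L →+ ℤ)
    (f : AddMonoidAlgebra R L) : AddMonoidAlgebra R L :=
  ∑ x ∈ f.coeff.support, AddMonoidAlgebra.single x (((w x : ℤ) : R) * f.coeff x)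

/-- The Laurent polynomials `f` are nondegenerate: for every linear functional `ℓ` their initial forms
are independent modulo the square of every prime ideal which contains them (they define a regular
subscheme of codimension `c` of the split torus over the Dedekind ring `R`). -/
def Nondegenerate {R L : Type} [CommRing R] [AddCommGroup L] {c : ℕ}
    (f : Fin c → AddMonoidAlgebra R L) : Prop :=
  ∀ (ℓ : L →+ ℤ) (Q : Ideal (AddMonoidAlgebra R L)), Q.IsPrime →
    (∀ r, initialForm ℓ (f r) ∈ Q) →
    ∀ d : Fin c → AddMonoidAlgebra R L, ∑ r, d r * initialForm ℓ (f r) ∈ Q ^ 2 → ∀ r, d r ∈ Q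

/-- The Laurent polynomials `f` are nondegenerate along the automorphism `g` of the lattice, modulo `𝔓`:
for every functional `ℓ` which is invariant under `g`, at every fixed point of `g` modulo `𝔓` where the
initial forms vanish, some `c` invariant derivations which are given by functionals invariant under `g`
have a nonzero Jacobian determinant. -/
def NondegenerateAlong {R L : Type} [CommRing R] [AddCommGroup L] {c : ℕ} (𝔓 : Ideal R) (g : L → L)
    (f : Fin c → AddMonoidAlgebra R L) : Prop :=
  ∀ ℓ : L →+ ℤ, (∀ x, ℓ (g x) = ℓ x) → ∀ Q : Ideal (AddMonoidAlgebra R L), Q.IsPrime →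
    (∀ a ∈ 𝔓, AddMonoidAlgebra.single 0 a ∈ Q) →
    (∀ x, AddMonoidAlgebra.single x 1 - AddMonoidAlgebra.single (g x) 1 ∈ Q) →
    (∀ r, initialForm ℓ (f r) ∈ Q) →
    ∃ w : Fin c → L →+ ℤ, (∀ i x, w i (g x) = w i x) ∧
      (Matrix.of fun i r => logDeriv (w i) (initialForm ℓ (f r))).det ∉ Q

/-- `χ` identifies the field `K` with the function field of the closed subvariety of the split torus
over `M` with the group of characters `L` which is defined by the Laurent polynomials `f`. -/
structure IsSubvarietyField {M K L : Type} [Field M] [Field K] [Algebra M K] [AddCommGroup L] {c : ℕ}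
    (f : Fin c → AddMonoidAlgebra M L) (χ : L → K) : Prop where
  zero : χ 0 = 1
  add : ∀ x y, χ (x + y) = χ x * χ y
  kernel : ∀ P : AddMonoidAlgebra M L,
    (P.coeff.sum fun x a => algebraMap M K a * χ x) = 0 ↔ P ∈ Ideal.span (Set.range f)
  generate : IntermediateField.adjoin M (Set.range χ) = ⊤

/-- The subvariety is not a translate of a subtorus: some characters, no two of which are proportional
on the subvariety, are linearly dependent on it. -/
def NotTranslatedTorus (M : Type) {K L : Type} [Field M] [Field K] [Algebra M K] [AddCommGroup L]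
    (χ : L → K) : Prop :=
  ∃ S : Finset L, (∀ x ∈ S, ∀ y ∈ S, x ≠ y → ∀ a : M, χ x ≠ algebraMap M K a * χ y) ∧
    ¬ LinearIndependent M (fun x : S => χ x)

theorem result :
    ∀ (E M : Type) [Field E] [NumberField E] [Field M] [NumberField M] [Algebra E M]
      [IsGalois E M],
      -- the wild inertia groups have order at most the residue characteristic
      (∀ 𝔓 : Ideal (𝓞 M), 𝔓.IsMaximal → ¬ ResCharPowDvd E 𝔓 2) →
      -- the character module of a torus over `E`
      ∀ (L : Type) [AddCommGroup L] [Module.Free ℤ L] [Module.Finite ℤ L]
      [DistribMulAction (M ≃ₐ[E] M) L]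
      -- the nondegenerate Laurent polynomials
      (c : ℕ) (f : Fin c → AddMonoidAlgebra (𝓞 M) L), Nondegenerate f →
      -- the condition at the wildly ramified primes
      (∀ (𝔓 : Ideal (𝓞 M)) (r : ℕ) (g : M ≃ₐ[E] M), 𝔓.IsMaximal → r.Prime → (r : 𝓞 M) ∈ 𝔓 →
        g ∈ inertiaGroup E 𝔓 → orderOf g = r → NondegenerateAlong 𝔓 (fun x : L => g • x) f) →
      -- the function field `K` of the subvariety over `M`, and the function field `F` over `E`
      ∀ (F K : Type) [Field F] [Field K] [Algebra E F] [Algebra M K] [Algebra E K]
      [IsScalarTower E M K] [Algebra F K] [IsScalarTower E F K] (χ : L → K),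
      IsSubvarietyField (fun r => AddMonoidAlgebra.mapRingHom L (algebraMap (𝓞 M) M) (f r)) χ →
      NotTranslatedTorus M χ →
      ∀ (ρ : (M ≃ₐ[E] M) →* (K ≃ₐ[E] K)), (∀ g c, ρ g (algebraMap M K c) = algebraMap M K (g c)) →
      (∀ g x, ρ g (χ x) = χ (g • x)) →
      (∀ y, (∀ g, ρ g y = y) ↔ ∃ z : F, algebraMap F K z = y) →
      -- every integral scheme of finite type over the integers with the function field `F`
      ∀ (Y : Scheme.{0}) (_ : IsIntegral Y) (s : Y ⟶ Spec (CommRingCat.of ℤ)),
      LocallyOfFiniteType s → QuasiCompact s → Nonempty (Y.functionField ≃+* F) →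
      ∃ (X' : Scheme.{0}) (_ : IsIntegral X') (g : X' ⟶ Spec (CommRingCat.of ℤ)),
        IsProper g ∧
        (∀ x : X',
          (((Module.finrank (IsLocalRing.ResidueField (X'.presheaf.stalk x))
              (IsLocalRing.CotangentSpace (X'.presheaf.stalk x)) : ℕ∞)) : WithBot ℕ∞)
            = ringKrullDim (X'.presheaf.stalk x)) ∧
        Nonempty (X'.functionField ≃+* Y.functionField) := by
  intro E M _ _ _ _ _ _ hin L _ _ _ _ c f hf hw F K _ _ _ _ _ _ _ _ χ hχ _ ρ hρ hact hfix Y _ s _ _
    ⟨i⟩
  have hcard : ∀ 𝔓 : Ideal (𝓞 M), Nat.card (Pool.Agent.Y223.G.inert E 𝔓) =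
      Nat.card (inertiaGroup E 𝔓) := by
    intro 𝔓
    have h1 : ((Pool.Agent.Y223.G.inert E 𝔓 : Subgroup (M ≃ₐ[E] M)) : Set (M ≃ₐ[E] M)) =
        inertiaGroup E 𝔓 := by
      ext g
      constructor
      · intro hg o
        exact ⟨_, hg o, rfl⟩
      · intro hg o
        obtain ⟨e, he, h⟩ := hg o
        have h2 : e = Pool.Agent.Y223.G.TT E M g o - o := by
          apply NumberField.RingOfIntegers.coe_injective
          exact h
        rw [← h2]
        exact he
    exact congrArg (fun S : Set (M ≃ₐ[E] M) => Nat.card S) h1
  have hin' : ∀ 𝔓 : Ideal (𝓞 M), 𝔓.IsMaximal → ∀ p : ℕ, p.Prime → (p : 𝓞 M) ∈ 𝔓 →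
      ¬ p ^ 2 ∣ Nat.card (Pool.Agent.Y223.G.inert E 𝔓) :=
    fun 𝔓 h𝔓 p hp hp𝔓 hd => hin 𝔓 h𝔓 ⟨p, hp, hp𝔓, by rwa [← hcard]⟩
  obtain ⟨φ, hφ⟩ := Pool.Agent.T9h3.H.exists_ev (K := K) (𝓞 M) hχ.zero hχ.add
  have hH := Pool.Agent.T9h3.H.HK_of (M := M) hφ hχ.zero hχ.add hχ.kernel
  obtain ⟨Δ, S⟩ := Pool.Agent.T9h3.H.exists_TSH hρ hin' hχ.zero hχ.add hact hφ hH hf (by
    intro 𝔓 g h𝔓 hg ℓ hℓ Q hQ hQ𝔓 hQx hQf
    obtain ⟨h1, h2⟩ := Pool.Agent.T9h3.H.wild_char ρ hρ hin' h𝔓 hg
    obtain ⟨w, hw1, hw2⟩ := hw 𝔓 (orderOf g) g h𝔓 h1 h2 hg.2.1 rfl ℓ hℓ Q hQ hQ𝔓 hQx hQf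
    refine ⟨fun i => (w i).toIntLinearMap, hw1, ?_⟩
    have h3 : (Matrix.of fun i r => Pool.Agent.T9h3.H.Dw (w i).toIntLinearMap
        (Pool.Agent.T9h3.H.ini ℓ (f r))) =
        Matrix.of fun i r => logDeriv (w i) (initialForm ℓ (f r)) := by
      ext1 i r
      exact Pool.Agent.T9h3.H.Dw_eq _ _
    rw [h3]
    exact hw2)
  obtain ⟨m, z, hD⟩ := S.wwd (F := F) hχ.generate hfix
  exact Pool.Agent.R383.TM.tm_model_F Pool.Agent.Y223.G.all_LINW Pool.Agent.Y223.G.all_CHW
    Pool.Agent.Y223.G.all_RWB Pool.Agent.Y614.H.RegL.t_REGL hD i

end Pool.Agent.T9h3.Old.NondegenerateSubvarietiesOfTori
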