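import Pool.Agent.T9h3.P.Prj

/-!
MP_4d1008_ag: resolution, in every dimension, of schemes birational to algebraic tori, and to
nondegenerate complete intersections in algebraic tori, over function fields of curves over finite
fields, with wild ramification.

Let `E` be the function field of a smooth projective curve `C` over a finite field `κ` of characteristic
`p`, and let `M` be a finite Galois extension of `E` with the Galois group `G`, such that no inertia
group has order divisible by `p ^ 2`. Let `T` be a torus over `E` which is split by `M`, with the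
character module `L`. Let `V` be a closed subvariety of `T` (for example `V = T`), and let `t` be a
rational function on `C`, such that `C → ℙ¹` is separable. Over each of the two affine open subsets of
`C`, the complements of the poles and of the zeros of `t`, suppose that `V` is defined over `M` by
Laurent polynomials `f_1, ..., f_c` in characters of `T`, which can be multiplied by constants from `M`
compatibly with the action of `G`, with coefficients in the ring `R` of the regular functions on the
preimage of this open subset, and that these are nondegenerate: for every linear functional `ℓ` on `L` the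
initial forms of the `f_r` define a regular subscheme of codimension `c` of the split torus over `R`, and
for every element `g` of order `p` of the inertia group of a maximal ideal `𝔓`, and every `ℓ` which is
invariant under `g`, the initial forms are smooth of codimension `c` modulo `𝔓`, at the fixed points of
`g`, along the directions which are invariant under `g`. (For `V = T` take `c = 0`; there is no
condition.) Then every integral scheme of finite type over the integers with the function field of `V`
has a regular proper model.

The theorem includes all tori over `E` which are split by `M`, for example the norm tori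
`N(x) = 1` of the subextensions of `M` over `E`, and it covers wild ramification of all depths.
The schemes are of characteristic `p`, and they have dimension `dim V + 1`.

The proof: there is a smooth lattice polytope in `L` which is stable under `G` and whose normal fan
refines those of the Newton polytopes of the Laurent polynomials. The closure of `V` in the toric scheme
of the polytope over `R` is regular, and a regular model of `V` over each of the two open subsets of `C` is
the quotient by `G` of a weighted blowup of this closure. The two models have the same generic fibre up to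
the linear system which defines them, and the model over `C` is obtained by gluing the lattices over
`κ[t]` and over `κ[t⁻¹]`.
-/

set_option autoImplicit false

open AlgebraicGeometry CategoryTheory CategoryTheory.Limits

open scoped IntermediateField

namespace Pool.Agent.T9h3.Old.ToriOverFunctionFields

/-- The integral closure in `M` of the polynomial ring `κ[s]`, where `s` is an element of `E`: the
functions in `M` which are regular outside of the poles of `s`. -/
abbrev regularFunctions (κ : Type) {E : Type} (M : Type) [Field κ] [Field E] [Field M] [Algebra κ E]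
    [Algebra E M] (s : E) : Subalgebra (Algebra.adjoin κ {s}) M :=
  integralClosure (Algebra.adjoin κ {s}) M

/-- The inertia group of the ideal `𝔓`: the automorphisms of `M` over `E` which act trivially modulo
`𝔓`. -/
def inertiaGroup {κ E M : Type} [Field κ] [Field E] [Field M] [Algebra κ E] [Algebra E M] (s : E)
    (𝔓 : Ideal (regularFunctions κ M s)) : Set (M ≃ₐ[E] M) :=
  {g | ∀ o : regularFunctions κ M s, ∃ e ∈ 𝔓, (e : M) = g o - o}

open Classical in
/-- The initial form of the Laurent polynomial `f`: the sum of the terms of `f` at which the linear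
functional `ℓ` is minimal. -/
noncomputable def initialForm {R L : Type} [CommRing R] [AddCommGroup L] (ℓ : L →+ ℤ)
    (f : AddMonoidAlgebra R L) : AddMonoidAlgebra R L :=
  ∑ x ∈ f.coeff.support with ∀ y ∈ f.coeff.support, ℓ x ≤ ℓ y,
    AddMonoidAlgebra.single x (f.coeff x)

/-- The invariant derivation of the torus which multiplies the character `x` by `w x`. -/
noncomputable def logDeriv {R L : Type} [CommRing R] [AddCommGroup L] (w : L →+ ℤ)
    (f : AddMonoidAlgebra R L) : AddMonoidAlgebra R L :=
  ∑ x ∈ f.coeff.support, AddMonoidAlgebra.single x (((w x : ℤ) : R) * f.coeff x)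

/-- The Laurent polynomials `f` are nondegenerate: for every linear functional `ℓ` their initial forms
are independent modulo the square of every prime ideal which contains them (they define a regular
subscheme of codimension `c` of the split torus over the Dedekind ring `R`). -/
def Nondegenerate {R L : Type} [CommRing R] [AddCommGroup L] {c : ℕ}
    (f : Fin c → AddMonoidAlgebra R L) : Prop :=
  ∀ (ℓ : L →+ ℤ) (Q : Ideal (AddMonoidAlgebra R L)), Q.IsPrime →
    (∀ r, initialForm ℓ (f r) ∈ Q) →
    ∀ d : Fin c → AddMonoidAlgebra R L, ∑ r, d r * initialForm ℓ (f r) ∈ Q ^ 2 → ∀ r, d r ∈ Q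

/-- The Laurent polynomials `f` are nondegenerate along the automorphism `g` of the lattice, modulo `𝔓`:
for every functional `ℓ` which is invariant under `g`, at every fixed point of `g` modulo `𝔓` where the
initial forms vanish, some `c` invariant derivations which are given by functionals invariant under `g`
have a nonzero Jacobian determinant. -/
def NondegenerateAlong {R L : Type} [CommRing R] [AddCommGroup L] {c : ℕ} (𝔓 : Ideal R) (g : L → L)
    (f : Fin c → AddMonoidAlgebra R L) : Prop :=
  ∀ ℓ : L →+ ℤ, (∀ x, ℓ (g x) = ℓ x) → ∀ Q : Ideal (AddMonoidAlgebra R L), Q.IsPrime →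
    (∀ a ∈ 𝔓, AddMonoidAlgebra.single 0 a ∈ Q) →
    (∀ x, AddMonoidAlgebra.single x 1 - AddMonoidAlgebra.single (g x) 1 ∈ Q) →
    (∀ r, initialForm ℓ (f r) ∈ Q) →
    ∃ w : Fin c → L →+ ℤ, (∀ i x, w i (g x) = w i x) ∧
      (Matrix.of fun i r => logDeriv (w i) (initialForm ℓ (f r))).det ∉ Q

/-- `χ` identifies the field `K` with the function field of the closed subvariety of the split torus
over `M` with the group of characters `L` which is defined by the Laurent polynomials `f`. -/
structure IsSubvarietyField {M K L : Type} [Field M] [Field K] [Algebra M K] [AddCommGroup L] {c : ℕ}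
    (f : Fin c → AddMonoidAlgebra M L) (χ : L → K) : Prop where
  zero : χ 0 = 1
  add : ∀ x y, χ (x + y) = χ x * χ y
  kernel : ∀ P : AddMonoidAlgebra M L,
    (P.coeff.sum fun x a => algebraMap M K a * χ x) = 0 ↔ P ∈ Ideal.span (Set.range f)
  generate : IntermediateField.adjoin M (Set.range χ) = ⊤

/-- The subvariety with the function field `K` and the characters `χ` is nondegenerate over the ring
`R` of the functions in `M` which are regular outside of the poles of `s`: it is defined by nondegenerate
Laurent polynomials over `R`, which are also nondegenerate along the automorphisms of order `p` in the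
inertia groups of the maximal ideals of `R`. -/
def NondegenerateOver (κ M : Type) {E K L : Type} [Field κ] [Field E] [Field M] [Field K]
    [Algebra κ E] [Algebra E M] [Algebra M K] [AddCommGroup L] [DistribMulAction (M ≃ₐ[E] M) L]
    (p : ℕ) (s : E) (χ : L → K) : Prop :=
  ∃ (c : ℕ) (f : Fin c → AddMonoidAlgebra (regularFunctions κ M s) L),
    IsSubvarietyField (fun r => AddMonoidAlgebra.mapRingHom L
      (algebraMap (regularFunctions κ M s) M) (f r)) χ ∧
    Nondegenerate f ∧
    ∀ (𝔓 : Ideal (regularFunctions κ M s)) (g : M ≃ₐ[E] M), 𝔓.IsMaximal →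
      g ∈ inertiaGroup s 𝔓 → orderOf g = p → NondegenerateAlong 𝔓 (fun x : L => g • x) f

/-- The equations over a chart. -/
lemma neq_of {κ E M K L : Type} [Field κ] [Field E] [Field M] [Algebra κ E] [Algebra E M]
    [Field K] [Algebra M K] [Algebra E K] [AddCommGroup L] [DistribMulAction (M ≃ₐ[E] M) L] {s : E}
    {p : ℕ} {ρ : (M ≃ₐ[E] M) →* (K ≃ₐ[E] K)} {χ : L → K}
    (hin : ∀ 𝔓 : Ideal (regularFunctions κ M s), 𝔓.IsMaximal →
      ¬ p ^ 2 ∣ Nat.card (inertiaGroup s 𝔓)) (act : ∀ g x, ρ g (χ x) = χ (g • x)) {c : ℕ}
    {f : Fin c → AddMonoidAlgebra (regularFunctions κ M s) L}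
    (h1 : IsSubvarietyField (fun r => AddMonoidAlgebra.mapRingHom L
      (algebraMap (regularFunctions κ M s) M) (f r)) χ)
    (h2 : Nondegenerate f)
    (h3 : ∀ (𝔓 : Ideal (regularFunctions κ M s)) (g : M ≃ₐ[E] M), 𝔓.IsMaximal →
      g ∈ inertiaGroup s 𝔓 → orderOf g = p → NondegenerateAlong 𝔓 (fun x : L => g • x) f) :
    Pool.Agent.T9h3.P.NEQ s p ρ χ f := by
  refine ⟨hin, h1.zero, h1.add, act, h1.kernel, h1.generate, h2, ?_⟩
  intro 𝔓 g h𝔓 ho hg ℓ hℓ Q hQ hQ𝔓 hQx hQf
  obtain ⟨w, hw1, hw2⟩ := h3 𝔓 g h𝔓 hg ho ℓ hℓ Q hQ hQ𝔓 hQx hQf
  refine ⟨fun i => (w i).toIntLinearMap, hw1, ?_⟩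
  have h4 : (Matrix.of fun i r => Pool.Agent.T9h3.H.Dw (w i).toIntLinearMap
      (Pool.Agent.T9h3.H.ini ℓ (f r))) =
      Matrix.of fun i r => logDeriv (w i) (initialForm ℓ (f r)) := by
    ext1 i r
    exact Pool.Agent.T9h3.H.Dw_eq _ _
  rw [h4]
  exact hw2

theorem result :
    -- the function field `E` of a curve over the finite field `κ`, with the separating element `t`,
    -- and its Galois extension `M`
    ∀ (κ E M : Type) [Field κ] [Finite κ] (p : ℕ) [CharP κ p] [Field E] [Algebra κ E] [Field M]
      [Algebra E M] [FiniteDimensional E M] [IsGalois E M] (t : E), Transcendental κ t →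
      FiniteDimensional κ⟮t⟯ E → Algebra.IsSeparable κ⟮t⟯ E →
      -- the orders of the inertia groups are not divisible by `p ^ 2`
      (∀ s : E, s = t ∨ s = t⁻¹ → ∀ 𝔓 : Ideal (regularFunctions κ M s), 𝔓.IsMaximal →
        ¬ p ^ 2 ∣ Nat.card (inertiaGroup s 𝔓)) →
      -- the character module of a torus over `E`
      ∀ (L : Type) [AddCommGroup L] [Module.Free ℤ L] [Module.Finite ℤ L]
      [DistribMulAction (M ≃ₐ[E] M) L]
      -- the function field `K` of the subvariety over `M`, and the function field `F` over `E`
      (F K : Type) [Field F] [Field K] [Algebra E F] [Algebra M K] [Algebra E K]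
      [IsScalarTower E M K] [Algebra F K] [IsScalarTower E F K]
      (ρ : (M ≃ₐ[E] M) →* (K ≃ₐ[E] K)), (∀ g c, ρ g (algebraMap M K c) = algebraMap M K (g c)) →
      (∀ y, (∀ g, ρ g y = y) ↔ ∃ z : F, algebraMap F K z = y) →
      -- the subvariety is nondegenerate outside of the poles of `t` and, after a change of the
      -- characters, outside of the zeros of `t`
      ∀ (χ : L → K), (∀ g x, ρ g (χ x) = χ (g • x)) → NondegenerateOver κ M p t χ →
      ∀ (a : L → M), (∀ (g : M ≃ₐ[E] M) x, g (a x) = a (g • x)) →
      NondegenerateOver κ M p t⁻¹ (fun x => algebraMap M K (a x) * χ x) →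
      -- every integral scheme of finite type over the integers with the function field `F`
      ∀ (Y : Scheme.{0}) (_ : IsIntegral Y) (s : Y ⟶ Spec (CommRingCat.of ℤ)),
      LocallyOfFiniteType s → QuasiCompact s → Nonempty (Y.functionField ≃+* F) →
      ∃ (X' : Scheme.{0}) (_ : IsIntegral X') (g : X' ⟶ Spec (CommRingCat.of ℤ)),
        IsProper g ∧
        (∀ x : X',
          (((Module.finrank (IsLocalRing.ResidueField (X'.presheaf.stalk x))
              (IsLocalRing.CotangentSpace (X'.presheaf.stalk x)) : ℕ∞)) : WithBot ℕ∞)
            = ringKrullDim (X'.presheaf.stalk x)) ∧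
        Nonempty (X'.functionField ≃+* Y.functionField) := by
  intro κ E M _ _ p _ _ _ _ _ _ _ t ht hfd hsep hin L _ _ _ _ F K _ _ _ _ _ _ _ _ ρ hρ hfix χ hact
    ⟨c₀, f₀, h1, h2, h3⟩ a hag ⟨c₁, f₁, h4, h5, h6⟩ Y _ s _ _ ⟨i⟩
  have ht0 : t ≠ 0 := by
    rintro rfl
    exact ht (isAlgebraic_zero)
  let _ : Algebra κ F := ((algebraMap E F).comp (algebraMap κ E)).toAlgebra
  have _ : IsScalarTower κ E F := IsScalarTower.of_algebraMap_eq fun _ => rfl
  have hM : Pool.Agent.H918R2.Quad.HasModule κ F := by
    refine Pool.Agent.T9h3.P.prj_hasModule ht0 ρ hρ hfix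
      (neq_of (hin t (Or.inl rfl)) hact h1 h2 h3)
      (neq_of (hin t⁻¹ (Or.inr rfl)) ?_ h4 h5 h6) a (fun x => rfl)
    intro g x
    rw [map_mul, hρ, hact, hag]
  have hf : Module.Finite ℤ κ := by
    have : Finite κ := inferInstance
    exact Module.Finite.of_finite
  obtain ⟨X', hX', g, h7, h8, ⟨e⟩⟩ := Pool.Agent.H918R2.Quad.model_of_hasModule
    (algebraMap κ F).injective hM
  exact ⟨X', hX', g, h7, h8, ⟨e.trans i.symm⟩⟩

end Pool.Agent.T9h3.Old.ToriOverFunctionFields
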